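import Pool.Agent.ToricNef.Base
import Pool.Agent.ToricNef.P_polar_compact
import Pool.Agent.ToricNef.P_facet_of_extreme
import Pool.Agent.ToricNef.P_facet_finite

open scoped Classical

namespace Pool.Agent.ToricNef

namespace X_zero_mem_facets

theorem zero_mem_facets {n : ℕ} (hn : 1 ≤ n) {S : Finset (Fin n → ℤ)} (hS : IsFano S) :
    (0 : Fin n → ℝ) ∈ convexHull ℝ {u | IsFacetNormal S u} := by
  obtain ⟨hc, hv⟩ := polar_compact hn hS
  have h0 : (0 : Fin n → ℝ) ∈ Polar S := by
    intro v _
    rw [zero_dotProduct]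
    exact zero_le_one
  have hKM := closure_convexHull_extremePoints hc hv
  rw [← hKM] at h0
  have hsub : convexHull ℝ ((Polar S).extremePoints ℝ) ⊆ convexHull ℝ {u | IsFacetNormal S u} :=
    convexHull_mono fun u hu => facet_of_extreme u hu
  have hclosed : IsClosed (convexHull ℝ {u : Fin n → ℝ | IsFacetNormal S u}) :=
    (facet_finite S).isClosed_convexHull ℝ
  exact (closure_minimal hsub hclosed) h0


end X_zero_mem_facets

alias zero_mem_facets := X_zero_mem_facets.zero_mem_facets

end Pool.Agent.ToricNef
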