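import Pool.Agent.ToricNef.Base
import Pool.Agent.ToricNef.P_exists_facet
import Pool.Agent.ToricNef.P_facet_finite
import Pool.Agent.ToricNef.P_zero_mem_facets

open scoped Classical

namespace Pool.Agent.ToricNef

namespace X_core_of_nef

theorem core_of_nef {n : ℕ} (hn : 1 ≤ n) {S : Finset (Fin n → ℤ)} (hS : IsFano S)
    (D : NefDecomposition S) :
    ∃ (P : Fin D.k → Finset (Fin n → ℤ)) (p : Fin D.k → Fin n → ℝ),
      CoreData n S D.k D.a P D.M p := by
  have toR_dot : ∀ m v : Fin n → ℤ, toR m ⬝ᵥ toR v = ((m ⬝ᵥ v : ℤ) : ℝ) := by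
    intro m v
    simp [dotProduct, toR]
  set U : Finset (Fin n → ℝ) := (facet_finite S).toFinset with hU
  have hUmem : ∀ u, u ∈ U ↔ IsFacetNormal S u := by
    intro u
    rw [hU, Set.Finite.mem_toFinset]
    rfl
  have hUcoe : (U : Set (Fin n → ℝ)) = {u | IsFacetNormal S u} := by
    rw [hU, Set.Finite.coe_toFinset]
  have h0 := zero_mem_facets hn hS
  rw [← hUcoe, Finset.mem_convexHull'] at h0
  obtain ⟨L, hL0, hL1, hL⟩ := h0
  choose m hm1 hm2 using D.nef
  set m' : Fin D.k → (Fin n → ℝ) → (Fin n → ℤ) :=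
    fun i u => if h : IsFacetNormal S u then m i u h else 0 with hm'
  have hA : ∀ i u, u ∈ U → ∀ v ∈ S, u ⬝ᵥ toR v = 1 → m' i u ⬝ᵥ v = D.M i v := by
    intro i u hu v hv huv
    have hu' := (hUmem u).1 hu
    simp only [hm', dif_pos hu']
    exact hm1 i u hu' v hv huv
  have hB : ∀ i u, u ∈ U → ∀ v ∈ S, m' i u ⬝ᵥ v ≤ D.M i v := by
    intro i u hu v hv
    have hu' := (hUmem u).1 hu
    simp only [hm', dif_pos hu']
    exact hm2 i u hu' v hv
  have hatt : ∀ i, ∀ v ∈ S, ∃ q ∈ U.image (m' i), q ⬝ᵥ v = D.M i v := by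
    intro i v hv
    obtain ⟨u, hu, huv⟩ := exists_facet hn hS v hv
    exact ⟨m' i u, Finset.mem_image_of_mem _ ((hUmem u).2 hu), hA i u ((hUmem u).2 hu) v hv huv⟩
  obtain ⟨t, ht⟩ := D.equiv
  have hkey : ∀ u ∈ U, (∑ i, D.a i • toR (m' i u)) + t = u := by
    intro u hu
    have hsp := ((hUmem u).1 hu).2
    set w : Fin n → ℝ := (∑ i, D.a i • toR (m' i u)) + t - u with hw
    have hz : ∀ x : Fin n → ℝ, w ⬝ᵥ x = 0 := by
      intro x
      have hx : x ∈ Submodule.span ℝ {x : Fin n → ℝ | ∃ v ∈ S, x = toR v ∧ u ⬝ᵥ toR v = 1} := by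
        rw [hsp]; trivial
      induction hx using Submodule.span_induction with
      | mem x hx =>
        obtain ⟨v, hv, rfl, huv⟩ := hx
        rw [hw, sub_dotProduct, add_dotProduct, sum_dotProduct, huv, ← ht v hv]
        have : ∑ i, (D.a i • toR (m' i u)) ⬝ᵥ toR v = ∑ i, D.a i * (D.M i v : ℝ) := by
          refine Finset.sum_congr rfl fun i _ => ?_
          rw [smul_dotProduct, toR_dot, hA i u hu v hv huv, smul_eq_mul]
        rw [this]
        ring
      | zero => exact dotProduct_zero _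
      | add x y _ _ hx hy => rw [dotProduct_add, hx, hy, add_zero]
      | smul c x _ hx => rw [dotProduct_smul, hx, smul_zero]
    have hw0 : w = 0 := dotProduct_self_eq_zero.1 (hz w)
    rw [hw] at hw0
    exact sub_eq_zero.1 hw0
  refine ⟨fun i => U.image (m' i), fun i => ∑ u ∈ U, L u • toR (m' i u), ?_⟩
  refine ⟨D.a_pos, ?_, hatt, ?_, ?_, ?_⟩
  · intro i q hq v hv
    obtain ⟨u, hu, rfl⟩ := Finset.mem_image.1 hq
    exact hB i u hu v hv
  · intro i
    refine (convex_convexHull ℝ _).sum_mem hL0 hL1 ?_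
    intro u hu
    refine subset_convexHull ℝ _ ?_
    exact ⟨m' i u, Finset.mem_coe.2 (Finset.mem_image_of_mem _ hu), rfl⟩
  · intro i
    by_contra hcon
    push Not at hcon
    have hne : U.Nonempty := by
      by_contra h
      rw [Finset.not_nonempty_iff_eq_empty] at h
      rw [h, Finset.sum_empty] at hL1
      exact zero_ne_one hL1
    obtain ⟨u0, hu0⟩ := hne
    apply D.nontrivial i
    refine ⟨toR (m' i u0), fun v hv => ?_⟩
    obtain ⟨q, hq, hqv⟩ := hatt i v hv
    have := hcon q hq (m' i u0) (Finset.mem_image_of_mem _ hu0)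
    rw [toR_dot, ← this, hqv]
  · intro v hv
    have hs : ∑ i, D.a i • (∑ u ∈ U, L u • toR (m' i u)) = -t := by
      have e1 : ∑ i, D.a i • (∑ u ∈ U, L u • toR (m' i u)) =
          ∑ u ∈ U, L u • ∑ i, D.a i • toR (m' i u) := by
        simp_rw [Finset.smul_sum]
        rw [Finset.sum_comm]
        refine Finset.sum_congr rfl fun u _ => Finset.sum_congr rfl fun i _ => ?_
        rw [smul_comm]
      have e2 : ∑ u ∈ U, L u • ∑ i, D.a i • toR (m' i u) = ∑ u ∈ U, (L u • u - L u • t) := by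
        refine Finset.sum_congr rfl fun u hu => ?_
        rw [← smul_sub]
        congr 1
        exact eq_sub_of_add_eq (hkey u hu)
      rw [e1, e2, Finset.sum_sub_distrib, hL, ← Finset.sum_smul, hL1, one_smul, zero_sub]
    have e3 : ∑ i, D.a i * ((D.M i v : ℝ) - (∑ u ∈ U, L u • toR (m' i u)) ⬝ᵥ toR v) =
        ∑ i, D.a i * (D.M i v : ℝ) -
          (∑ i, D.a i • (∑ u ∈ U, L u • toR (m' i u))) ⬝ᵥ toR v := by
      rw [sum_dotProduct, ← Finset.sum_sub_distrib]
      refine Finset.sum_congr rfl fun i _ => ?_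
      rw [smul_dotProduct, smul_eq_mul]
      ring
    show ∑ i, D.a i * ((D.M i v : ℝ) - (∑ u ∈ U, L u • toR (m' i u)) ⬝ᵥ toR v) ≤ 1
    rw [e3, hs, neg_dotProduct, ← ht v hv]
    linarith


end X_core_of_nef

alias core_of_nef := X_core_of_nef.core_of_nef

end Pool.Agent.ToricNef
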