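import Pool.Agent.ToricNef.Base

open scoped Classical

namespace Pool.Agent.ToricNef

namespace X_decomposition_of_basis

theorem decomposition_of_basis_toR {n : ℕ} (m v : Fin n → ℤ) :
    toR m ⬝ᵥ toR v = ((m ⬝ᵥ v : ℤ) : ℝ) := by
  simp [toR, dotProduct]

theorem decomposition_of_basis_neg {n : ℕ} (v : Fin n → ℤ) : toR (-v) = - toR v := by
  ext i
  simp [toR]

theorem decomposition_of_basis_dual {n : ℕ} (b : Module.Basis (Fin n) ℤ (Fin n → ℤ)) (j : Fin n)
    (v : Fin n → ℤ) : (fun i => b.coord j (Pi.single i 1)) ⬝ᵥ v = b.coord j v := by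
  conv_rhs => rw [show v = ∑ i, v i • (Pi.single i (1 : ℤ) : Fin n → ℤ) from by
    ext k
    simp [Finset.sum_apply, Pi.single_apply]]
  rw [map_sum]
  simp only [map_smul, smul_eq_mul, dotProduct]
  exact Finset.sum_congr rfl fun i _ => mul_comm _ _

theorem decomposition_of_basis_coord {n : ℕ} (b : Module.Basis (Fin n) ℤ (Fin n → ℤ))
    (j l : Fin n) : b.coord j (b l) = if l = j then 1 else 0 := by
  rw [Module.Basis.coord_apply, Module.Basis.repr_self, Finsupp.single_apply]

theorem decomposition_of_basis_ne {n : ℕ} (b : Module.Basis (Fin n) ℤ (Fin n → ℤ))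
    (j l : Fin n) : - b l ≠ b j := by
  intro h
  have h1 := congrArg (b.coord l) h
  rw [map_neg, decomposition_of_basis_coord, decomposition_of_basis_coord] at h1
  simp only [if_true] at h1
  split_ifs at h1 <;> omega

theorem decomposition_of_basis_M {n : ℕ} (b : Module.Basis (Fin n) ℤ (Fin n → ℤ))
    (j l : Fin n) : (if b l = b j then (1 : ℤ) else 0) = if l = j then 1 else 0 := by
  by_cases h : l = j
  · simp [h]
  · rw [if_neg h, if_neg (fun h' => h (b.injective h'))]

theorem decomposition_of_basis {n : ℕ} (hn : 1 ≤ n) {S : Finset (Fin n → ℤ)}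
    (b : Module.Basis (Fin n) ℤ (Fin n → ℤ)) (hb : ∀ v, v ∈ S ↔ ∃ j, v = b j ∨ v = - b j) :
    ∃ D : NefDecomposition S, D.weight = 2 * n := by
  have hz : ∀ l, b l ∈ S := fun l => (hb _).2 ⟨l, Or.inl rfl⟩
  have hz' : ∀ l, - b l ∈ S := fun l => (hb _).2 ⟨l, Or.inr rfl⟩
  refine ⟨{ k := n, one_le_k := hn, a := fun _ => 2, a_pos := fun _ => by norm_num,
            M := fun j v => if v = b j then 1 else 0, nef := ?_, nontrivial := ?_, equiv := ?_ }, ?_⟩
  · intro j u hu
    by_cases h1 : u ⬝ᵥ toR (b j) = 1
    · refine ⟨fun i => b.coord j (Pi.single i 1), ?_, ?_⟩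
      · intro v hv huv
        rw [decomposition_of_basis_dual]
        obtain ⟨l, rfl | rfl⟩ := (hb v).1 hv
        · simp only
          rw [decomposition_of_basis_M, decomposition_of_basis_coord]
        · simp only
          rw [if_neg (decomposition_of_basis_ne b j l), map_neg, decomposition_of_basis_coord]
          by_cases hl : l = j
          · exfalso
            subst hl
            rw [decomposition_of_basis_neg, dotProduct_neg, h1] at huv
            norm_num at huv
          · rw [if_neg hl, neg_zero]
      · intro v hv
        rw [decomposition_of_basis_dual]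
        obtain ⟨l, rfl | rfl⟩ := (hb v).1 hv
        · simp only
          rw [decomposition_of_basis_M, decomposition_of_basis_coord]
        · simp only
          rw [if_neg (decomposition_of_basis_ne b j l), map_neg, decomposition_of_basis_coord]
          split_ifs <;> omega
    · refine ⟨0, ?_, ?_⟩
      · intro v hv huv
        rw [zero_dotProduct]
        have : v ≠ b j := by
          rintro rfl
          exact h1 huv
        simp [this]
      · intro v hv
        rw [zero_dotProduct]
        simp only
        split_ifs <;> omega
  · intro j h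
    obtain ⟨t, ht⟩ := h
    have h1 := ht _ (hz j)
    have h2 := ht _ (hz' j)
    simp only [if_true] at h1
    simp only [if_neg (decomposition_of_basis_ne b j j)] at h2
    rw [decomposition_of_basis_neg, dotProduct_neg] at h2
    rw [← h1] at h2
    norm_num at h2
  · refine ⟨- ∑ j, toR (fun i => b.coord j (Pi.single i 1)), ?_⟩
    intro v hv
    rw [neg_dotProduct, sum_dotProduct]
    simp only [decomposition_of_basis_toR, decomposition_of_basis_dual]
    obtain ⟨l, rfl | rfl⟩ := (hb v).1 hv
    · simp only [decomposition_of_basis_M, decomposition_of_basis_coord]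
      simp
      norm_num
    · simp only [if_neg (decomposition_of_basis_ne b _ l), map_neg, decomposition_of_basis_coord]
      simp
  · simp only [NefDecomposition.weight]
    simp [mul_comm]



end X_decomposition_of_basis

alias decomposition_of_basis := X_decomposition_of_basis.decomposition_of_basis

end Pool.Agent.ToricNef
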