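import Pool.Agent.ToricNef.Base

open scoped Classical

namespace Pool.Agent.ToricNef

namespace X_dual_of_eq

/-- the dual basis coming from the equality case -/
theorem dual_of_eq {n k : ℕ} {S : Finset (Fin n → ℤ)} {a : Fin k → ℝ}
    {P : Fin k → Finset (Fin n → ℤ)}
    {d : Fin k → (Fin n → ℤ) → ℤ} {p : Fin k → Fin n → ℝ} (h : CoreData n S k a P d p)
    (heq : ∑ i, a i = 2 * n) (b : Fin n → Fin n → ℤ) (hb : ∀ j, b j ∈ S) (hnb : ∀ j, - b j ∈ S)
    (hlin : LinearIndependent ℝ (fun j => toR (b j))) :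
    ∃ u : Fin n → Fin n → ℤ, ∀ j l, u j ⬝ᵥ b l = if j = l then 1 else 0 := by
  have hcast : ∀ m v : Fin n → ℤ, ((m ⬝ᵥ v : ℤ) : ℝ) = toR m ⬝ᵥ toR v := by
    intro m v
    unfold toR
    simp only [dotProduct]
    push_cast
    rfl
  have hneg : ∀ v : Fin n → ℤ, toR (-v) = - toR v := by
    intro v
    funext i
    simp [toR]
  -- injectivity
  have hinj : ∀ m m' : Fin n → ℤ, (∀ j, m ⬝ᵥ b j = m' ⬝ᵥ b j) → m = m' := by
    intro m m' hmm
    have hU : IsUnit (Matrix.of (fun j => toR (b j))) :=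
      Matrix.linearIndependent_rows_iff_isUnit.mp hlin
    have hi := Matrix.mulVec_injective_iff_isUnit.mpr hU
    have h1 : toR m = toR m' := by
      apply hi
      funext j
      show toR (b j) ⬝ᵥ toR m = toR (b j) ⬝ᵥ toR m'
      rw [dotProduct_comm, ← hcast, hmm j, hcast, dotProduct_comm]
    funext i
    have h2 := congrFun h1 i
    unfold toR at h2
    exact_mod_cast h2
  -- the widths
  have hD : ∀ i j, ∀ m ∈ P i, ∀ m2 ∈ P i, m ⬝ᵥ b j - m2 ⬝ᵥ b j ≤ d i (b j) + d i (- b j) := by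
    intro i j m hm m2 hm2
    have h1 := h.le i m hm _ (hb j)
    have h2 := h.le i m2 hm2 _ (hnb j)
    rw [dotProduct_neg] at h2
    linarith
  have hDa : ∀ i j, ∃ m ∈ P i, ∃ m2 ∈ P i, m ⬝ᵥ b j - m2 ⬝ᵥ b j = d i (b j) + d i (- b j) := by
    intro i j
    obtain ⟨m, hm, hm'⟩ := h.att i _ (hb j)
    obtain ⟨m2, hm2, hm2'⟩ := h.att i _ (hnb j)
    refine ⟨m, hm, m2, hm2, ?_⟩
    rw [dotProduct_neg] at hm2'
    linarith
  obtain ⟨D, hDdef⟩ : ∃ D : Fin k → Fin n → ℤ, ∀ i j, D i j = d i (b j) + d i (- b j) :=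
    ⟨fun i j => d i (b j) + d i (- b j), fun i j => rfl⟩
  simp only [← hDdef] at hD hDa
  have hD0 : ∀ i j, 0 ≤ D i j := by
    intro i j
    obtain ⟨m, hm, -⟩ := h.nontriv i
    have := hD i j m hm m hm
    linarith
  have hD1 : ∀ i, 1 ≤ ∑ j, D i j := by
    intro i
    obtain ⟨m, hm, m', hm', hne⟩ := h.nontriv i
    have h1 : ∃ j, m ⬝ᵥ b j ≠ m' ⬝ᵥ b j := by
      by_contra hcon
      push Not at hcon
      exact hne (hinj m m' hcon)
    obtain ⟨j, hj⟩ := h1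
    have h2 : 1 ≤ D i j := by
      have h3 := hD i j m hm m' hm'
      have h4 := hD i j m' hm' m hm
      omega
    exact h2.trans (Finset.single_le_sum (f := fun j => D i j) (fun j _ => hD0 i j) (Finset.mem_univ j))
  have hsum : ∀ j, ∑ i, a i * (D i j : ℝ) ≤ 2 := by
    intro j
    have h1 := h.sum_le _ (hb j)
    have h2 := h.sum_le _ (hnb j)
    have h3 : ∑ i, a i * (D i j : ℝ) = ∑ i, a i * ((d i (b j) : ℝ) - p i ⬝ᵥ toR (b j)) +
        ∑ i, a i * ((d i (- b j) : ℝ) - p i ⬝ᵥ toR (- b j)) := by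
      rw [← Finset.sum_add_distrib]
      refine Finset.sum_congr rfl fun i _ => ?_
      rw [hneg, dotProduct_neg, hDdef]
      push_cast
      ring
    rw [h3]
    linarith
  have hswap : ∑ j, ∑ i, a i * (D i j : ℝ) = ∑ i, a i * ((∑ j, D i j : ℤ) : ℝ) := by
    rw [Finset.sum_comm]
    refine Finset.sum_congr rfl fun i _ => ?_
    push_cast
    rw [Finset.mul_sum]
  have hle1 : ∑ j : Fin n, ∑ i, a i * (D i j : ℝ) ≤ 2 * n := by
    calc ∑ j : Fin n, ∑ i, a i * (D i j : ℝ) ≤ ∑ j : Fin n, (2 : ℝ) :=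
          Finset.sum_le_sum fun j _ => hsum j
      _ = 2 * n := by simp [mul_comm]
  have hge1 : ∀ i, a i ≤ a i * ((∑ j, D i j : ℤ) : ℝ) := by
    intro i
    have h1 : (1 : ℝ) ≤ ((∑ j, D i j : ℤ) : ℝ) := by exact_mod_cast hD1 i
    have := mul_le_mul_of_nonneg_left h1 (h.apos i).le
    linarith
  have hge2 : ∑ i, a i ≤ ∑ i, a i * ((∑ j, D i j : ℤ) : ℝ) := Finset.sum_le_sum fun i _ => hge1 i
  have heqs : ∑ i, a i = ∑ i, a i * ((∑ j, D i j : ℤ) : ℝ) := by
    apply le_antisymm hge2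
    rw [← hswap, heq]
    exact hle1
  have hDsum : ∀ i, ∑ j, D i j = 1 := by
    intro i
    have h1 := (Finset.sum_eq_sum_iff_of_le (fun i _ => hge1 i)).mp heqs i (Finset.mem_univ i)
    have h2 : ((∑ j, D i j : ℤ) : ℝ) = 1 := by
      have h3 := (h.apos i).ne'
      have h4 : a i * ((∑ j, D i j : ℤ) : ℝ) = a i * 1 := by rw [← h1, mul_one]
      exact mul_left_cancel₀ h3 h4
    exact_mod_cast h2
  have heq2 : ∀ j, ∑ i, a i * (D i j : ℝ) = 2 := by
    have h1 : ∑ j : Fin n, ∑ i, a i * (D i j : ℝ) = ∑ j : Fin n, (2 : ℝ) := by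
      rw [hswap, ← heqs, heq]
      simp [mul_comm]
    intro j
    exact (Finset.sum_eq_sum_iff_of_le (fun j _ => hsum j)).mp h1 j (Finset.mem_univ j)
  have hex : ∀ j, ∃ i, D i j = 1 ∧ ∀ l, l ≠ j → D i l = 0 := by
    intro j
    have h1 : ∃ i, D i j ≠ 0 := by
      by_contra hcon
      push Not at hcon
      have h2 := heq2 j
      simp [hcon] at h2
    obtain ⟨i, hi⟩ := h1
    have h2 := hDsum i
    have h3 := Finset.add_sum_erase Finset.univ (fun j => D i j) (Finset.mem_univ j)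
    have h4 : 0 ≤ ∑ l ∈ Finset.univ.erase j, D i l := Finset.sum_nonneg fun l _ => hD0 i l
    have h5 := hD0 i j
    have h6 : D i j = 1 := by omega
    have h7 : ∑ l ∈ Finset.univ.erase j, D i l = 0 := by omega
    refine ⟨i, h6, fun l hl => ?_⟩
    exact (Finset.sum_eq_zero_iff_of_nonneg fun l _ => hD0 i l).mp h7 l
      (Finset.mem_erase.mpr ⟨hl, Finset.mem_univ l⟩)
  have hfin : ∀ j, ∃ u : Fin n → ℤ, ∀ l, u ⬝ᵥ b l = if j = l then 1 else 0 := by
    intro j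
    obtain ⟨i, hi1, hi2⟩ := hex j
    obtain ⟨m, hm, m2, hm2, hmm⟩ := hDa i j
    refine ⟨m - m2, fun l => ?_⟩
    rw [sub_dotProduct]
    by_cases hjl : j = l
    · rw [if_pos hjl, ← hjl, hmm, hi1]
    · rw [if_neg hjl]
      have h1 := hD i l m hm m2 hm2
      have h2 := hD i l m2 hm2 m hm
      rw [hi2 l (Ne.symm hjl)] at h1 h2
      omega
  choose u hu using hfin
  exact ⟨u, hu⟩


end X_dual_of_eq

alias dual_of_eq := X_dual_of_eq.dual_of_eq

end Pool.Agent.ToricNef
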