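import Pool.Agent.ToricNef.Base

open scoped Classical

namespace Pool.Agent.ToricNef

namespace X_weights_lemma

theorem weights_int (a : ℝ) (ha : 0 < a) :
    MeasureTheory.Integrable ((Set.Ici a).indicator (fun s : ℝ => s ^ (-2 : ℝ))) ∧
      ∫ s, (Set.Ici a).indicator (fun s : ℝ => s ^ (-2 : ℝ)) s = 1 / a := by
  constructor
  · rw [MeasureTheory.integrable_indicator_iff measurableSet_Ici, integrableOn_Ici_iff_integrableOn_Ioi]
    exact integrableOn_Ioi_rpow_of_lt (by norm_num) ha
  · rw [MeasureTheory.integral_indicator measurableSet_Ici,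
      MeasureTheory.integral_Ici_eq_integral_Ioi, integral_Ioi_rpow_of_lt (by norm_num) ha]
    have : (-2 : ℝ) + 1 = -1 := by norm_num
    rw [this, Real.rpow_neg_one]
    field_simp

theorem weights_lemma {α ι : Type} (T : Finset α) (c : α → ℝ) (hc : ∀ l ∈ T, 0 < c l)
    (I : Finset ι) (x lam : ι → ℝ) (hx : ∀ i ∈ I, 0 ≤ x i) (hlam : ∀ i ∈ I, ∃ l ∈ T, lam i = c l)
    (h : ∀ s : ℝ, ∑ i ∈ I.filter (fun i => lam i ≤ s), x i ≤
      ∑ l ∈ T.filter (fun l => c l ≤ s), c l) :
    ∑ i ∈ I, x i / lam i ≤ T.card := by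
  have hl : ∀ i ∈ I, 0 < lam i := by
    intro i hi
    obtain ⟨l, hl, e⟩ := hlam i hi
    rw [e]; exact hc l hl
  have hF : ∫ s, ∑ i ∈ I, x i * (Set.Ici (lam i)).indicator (fun s : ℝ => s ^ (-2 : ℝ)) s =
      ∑ i ∈ I, x i / lam i := by
    rw [MeasureTheory.integral_finset_sum]
    · refine Finset.sum_congr rfl fun i hi => ?_
      rw [MeasureTheory.integral_const_mul, (weights_int _ (hl i hi)).2]
      ring
    · intro i hi
      exact (weights_int _ (hl i hi)).1.const_mul _
  have hG : ∫ s, ∑ l ∈ T, c l * (Set.Ici (c l)).indicator (fun s : ℝ => s ^ (-2 : ℝ)) s =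
      T.card := by
    rw [MeasureTheory.integral_finset_sum]
    · have : ∀ l ∈ T, ∫ s, c l * (Set.Ici (c l)).indicator (fun s : ℝ => s ^ (-2 : ℝ)) s = 1 := by
        intro l hl
        rw [MeasureTheory.integral_const_mul, (weights_int _ (hc l hl)).2]
        exact mul_one_div_cancel (hc l hl).ne'
      rw [Finset.sum_congr rfl this]
      simp
    · intro i hi
      exact (weights_int _ (hc i hi)).1.const_mul _
  rw [← hF, ← hG]
  apply MeasureTheory.integral_mono
  · exact MeasureTheory.integrable_finset_sum _ fun i hi =>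
      (weights_int _ (hl i hi)).1.const_mul _
  · exact MeasureTheory.integrable_finset_sum _ fun i hi =>
      (weights_int _ (hc i hi)).1.const_mul _
  · intro s
    have e1 : ∑ i ∈ I, x i * (Set.Ici (lam i)).indicator (fun s : ℝ => s ^ (-2 : ℝ)) s =
        (∑ i ∈ I.filter (fun i => lam i ≤ s), x i) * s ^ (-2 : ℝ) := by
      rw [Finset.sum_filter, Finset.sum_mul]
      refine Finset.sum_congr rfl fun i hi => ?_
      by_cases hs : lam i ≤ s
      · rw [Set.indicator_of_mem (show s ∈ Set.Ici (lam i) from hs), if_pos hs]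
      · rw [Set.indicator_of_notMem (show s ∉ Set.Ici (lam i) from hs), if_neg hs]
        ring
    have e2 : ∑ l ∈ T, c l * (Set.Ici (c l)).indicator (fun s : ℝ => s ^ (-2 : ℝ)) s =
        (∑ l ∈ T.filter (fun l => c l ≤ s), c l) * s ^ (-2 : ℝ) := by
      rw [Finset.sum_filter, Finset.sum_mul]
      refine Finset.sum_congr rfl fun i hi => ?_
      by_cases hs : c i ≤ s
      · rw [Set.indicator_of_mem (show s ∈ Set.Ici (c i) from hs), if_pos hs]
      · rw [Set.indicator_of_notMem (show s ∉ Set.Ici (c i) from hs), if_neg hs]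
        ring
    change ∑ i ∈ I, x i * (Set.Ici (lam i)).indicator (fun s : ℝ => s ^ (-2 : ℝ)) s ≤
      ∑ l ∈ T, c l * (Set.Ici (c l)).indicator (fun s : ℝ => s ^ (-2 : ℝ)) s
    rw [e1, e2]
    refine mul_le_mul_of_nonneg_right (h s) ?_
    have : (s : ℝ) ^ (-2 : ℝ) = (s ^ 2)⁻¹ := by
      rw [show (-2 : ℝ) = ((-2 : ℤ) : ℝ) by norm_num, Real.rpow_intCast]
      rfl
    rw [this]
    positivity


end X_weights_lemma

alias weights_lemma := X_weights_lemma.weights_lemma

end Pool.Agent.ToricNef
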