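import Pool.Agent.ToricNef.Base
import Pool.Agent.ToricNef.P_weights_lemma

open scoped Classical

namespace Pool.Agent.ToricNef

namespace X_lemmaA

theorem toR_dot {n : ℕ} (m v : Fin n → ℤ) : toR m ⬝ᵥ toR v = ((m ⬝ᵥ v : ℤ) : ℝ) := by
  simp [dotProduct, toR]

theorem hull_le {n : ℕ} {P : Set (Fin n → ℝ)} {z : Fin n → ℝ} (hz : z ∈ convexHull ℝ P)
    (x : Fin n → ℝ) (r : ℝ) (h : ∀ q ∈ P, q ⬝ᵥ x ≤ r) : z ⬝ᵥ x ≤ r := by
  have h1 : IsLinearMap ℝ (fun q : Fin n → ℝ => q ⬝ᵥ x) :=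
    ⟨fun a b => add_dotProduct a b x, fun c a => smul_dotProduct c a x⟩
  exact convexHull_min (t := {q | q ⬝ᵥ x ≤ r}) h (convex_halfSpace_le h1 r) hz

theorem hull_eq {n : ℕ} {P : Set (Fin n → ℝ)} {z : Fin n → ℝ} (hz : z ∈ convexHull ℝ P)
    (x : Fin n → ℝ) (r : ℝ) (h : ∀ q ∈ P, q ⬝ᵥ x = r) : z ⬝ᵥ x = r := by
  have h1 := hull_le hz x r fun q hq => (h q hq).le
  have h2 := hull_le hz (-x) (-r) fun q hq => by rw [dotProduct_neg, h q hq]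
  rw [dotProduct_neg] at h2
  linarith

theorem lemmaA {n k : ℕ} {S : Finset (Fin n → ℤ)} {a : Fin k → ℝ} {P : Fin k → Finset (Fin n → ℤ)}
    {d : Fin k → (Fin n → ℤ) → ℤ} {p : Fin k → Fin n → ℝ} (h : CoreData n S k a P d p)
    (I : Finset (Fin k)) (T : Finset (Fin n → ℤ)) (hTS : T ⊆ S) (c : (Fin n → ℤ) → ℝ)
    (hc : ∀ v ∈ T, 0 < c v) (hrel : ∑ v ∈ T, c v • toR v ∈ Vsub P I) :
    ∑ i ∈ I.filter (fun i => ∃ v ∈ T, ∃ m ∈ P i, ∃ m' ∈ P i, m ⬝ᵥ v ≠ m' ⬝ᵥ v), a i ≤ T.card := by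
  set g : Fin k → (Fin n → ℤ) → ℝ := fun i v => (d i v : ℝ) - p i ⬝ᵥ toR v with hg
  set y : Fin n → ℝ := ∑ v ∈ T, c v • toR v with hy
  have hdoty : ∀ q : Fin n → ℝ, q ⬝ᵥ y = ∑ v ∈ T, c v * (q ⬝ᵥ toR v) := by
    intro q
    rw [hy, dotProduct_sum]
    refine Finset.sum_congr rfl fun v _ => ?_
    rw [dotProduct_smul, smul_eq_mul]
  -- (1)
  have g0 : ∀ i, ∀ v ∈ S, 0 ≤ g i v := by
    intro i v hv
    have := hull_le (h.conv i) (toR v) (d i v) (by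
      rintro _ ⟨m, hm, rfl⟩
      rw [toR_dot]
      exact_mod_cast h.le i m hm v hv)
    simp only [hg]
    linarith
  have g1 : ∀ i, ∀ m ∈ P i, ∀ v ∈ S, toR m ⬝ᵥ toR v - p i ⬝ᵥ toR v ≤ g i v := by
    intro i m hm v hv
    have : toR m ⬝ᵥ toR v ≤ d i v := by
      rw [toR_dot]
      exact_mod_cast h.le i m hm v hv
    simp only [hg]
    linarith
  -- (2)
  have e2 : ∀ i ∈ I, ∀ m ∈ P i, p i ⬝ᵥ y = toR m ⬝ᵥ y := by
    intro i hi m hm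
    refine hull_eq (h.conv i) y _ ?_
    rintro _ ⟨m', hm', rfl⟩
    exact hrel i hi m' hm' m hm
  -- (3)
  set G : Fin k → ℝ := fun i => ∑ v ∈ T, c v * g i v with hG
  have key : ∀ i ∈ I, ∀ l ∈ T, ∀ m ∈ P i, ∀ m2 ∈ P i, m2 ⬝ᵥ l < m ⬝ᵥ l → c l ≤ G i := by
    intro i hi l hl m hm m2 hm2 hlt
    have h1 : ∑ v ∈ T, c v * (toR m2 ⬝ᵥ toR v - p i ⬝ᵥ toR v) = 0 := by
      simp only [mul_sub, Finset.sum_sub_distrib]
      rw [← hdoty, ← hdoty, e2 i hi m2 hm2, sub_self]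
    have h2 : G i = c l * g i l + ∑ v ∈ T.erase l, c v * g i v :=
      (Finset.add_sum_erase T _ hl).symm
    have h3 : ∑ v ∈ T, c v * (toR m2 ⬝ᵥ toR v - p i ⬝ᵥ toR v) =
        c l * (toR m2 ⬝ᵥ toR l - p i ⬝ᵥ toR l) +
          ∑ v ∈ T.erase l, c v * (toR m2 ⬝ᵥ toR v - p i ⬝ᵥ toR v) :=
      (Finset.add_sum_erase T _ hl).symm
    have h4 : ∑ v ∈ T.erase l, c v * (toR m2 ⬝ᵥ toR v - p i ⬝ᵥ toR v) ≤
        ∑ v ∈ T.erase l, c v * g i v := by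
      refine Finset.sum_le_sum fun v hv => ?_
      have hvT := Finset.mem_of_mem_erase hv
      exact mul_le_mul_of_nonneg_left (g1 i m2 hm2 v (hTS hvT)) (hc v hvT).le
    have h5 : c l * (toR m ⬝ᵥ toR l - p i ⬝ᵥ toR l) ≤ c l * g i l :=
      mul_le_mul_of_nonneg_left (g1 i m hm l (hTS hl)) (hc l hl).le
    have h6 : toR m2 ⬝ᵥ toR l + 1 ≤ toR m ⬝ᵥ toR l := by
      rw [toR_dot, toR_dot]
      exact_mod_cast hlt
    have h7 : c l * (toR m2 ⬝ᵥ toR l + 1) ≤ c l * (toR m ⬝ᵥ toR l) :=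
      mul_le_mul_of_nonneg_left h6 (hc l hl).le
    nlinarith
  have key' : ∀ i ∈ I, ∀ l ∈ T, (∃ m ∈ P i, ∃ m' ∈ P i, m ⬝ᵥ l ≠ m' ⬝ᵥ l) → c l ≤ G i := by
    rintro i hi l hl ⟨m, hm, m', hm', hne⟩
    rcases lt_or_gt_of_ne hne with h1 | h1
    · exact key i hi l hl m' hm' m hm h1
    · exact key i hi l hl m hm m' hm' h1
  set J := I.filter (fun i => ∃ v ∈ T, ∃ m ∈ P i, ∃ m' ∈ P i, m ⬝ᵥ v ≠ m' ⬝ᵥ v) with hJ
  have hex : ∀ i, ∃ l, i ∈ J → l ∈ T ∧ (∃ m ∈ P i, ∃ m' ∈ P i, m ⬝ᵥ l ≠ m' ⬝ᵥ l) ∧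
      ∀ v ∈ T, (∃ m ∈ P i, ∃ m' ∈ P i, m ⬝ᵥ v ≠ m' ⬝ᵥ v) → c v ≤ c l := by
    intro i
    by_cases hi : i ∈ J
    · obtain ⟨-, v, hv, hnt⟩ := Finset.mem_filter.1 hi
      obtain ⟨l, hl, hmax⟩ := Finset.exists_max_image
        (T.filter (fun v => ∃ m ∈ P i, ∃ m' ∈ P i, m ⬝ᵥ v ≠ m' ⬝ᵥ v)) c
        ⟨v, Finset.mem_filter.2 ⟨hv, hnt⟩⟩
      obtain ⟨hl1, hl2⟩ := Finset.mem_filter.1 hl
      exact ⟨l, fun _ => ⟨hl1, hl2, fun v hv hnt => hmax v (Finset.mem_filter.2 ⟨hv, hnt⟩)⟩⟩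
    · exact ⟨fun _ => 0, fun h' => absurd h' hi⟩
  choose L hL using hex
  have hGnn : ∀ i, 0 ≤ G i := fun i =>
    Finset.sum_nonneg fun v hv => mul_nonneg (hc v hv).le (g0 i v (hTS hv))
  have hw := weights_lemma T c hc J (fun i => a i * G i) (fun i => c (L i))
    (fun i _ => mul_nonneg (h.apos i).le (hGnn i)) (fun i hi => ⟨L i, (hL i hi).1, rfl⟩) (by
      intro s
      have h1 : ∀ i ∈ J.filter (fun i => c (L i) ≤ s),
          a i * G i = ∑ v ∈ T.filter (fun v => c v ≤ s), c v * (a i * g i v) := by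
        intro i hi
        obtain ⟨hiJ, his⟩ := Finset.mem_filter.1 hi
        rw [Finset.sum_filter, hG, Finset.mul_sum]
        refine Finset.sum_congr rfl fun v hv => ?_
        split_ifs with hvs
        · ring
        · have hnt : ¬ (∃ m ∈ P i, ∃ m' ∈ P i, m ⬝ᵥ v ≠ m' ⬝ᵥ v) := fun hnt =>
            hvs (((hL i hiJ).2.2 v hv hnt).trans his)
          push Not at hnt
          obtain ⟨m, hm, hmd⟩ := h.att i v (hTS hv)
          have hpe : p i ⬝ᵥ toR v = d i v := by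
            refine hull_eq (h.conv i) (toR v) _ ?_
            rintro _ ⟨m', hm', rfl⟩
            rw [toR_dot, hnt m' hm' m hm, hmd]
          have : g i v = 0 := by
            simp only [hg, hpe, sub_self]
          rw [this]
          ring
      rw [Finset.sum_congr rfl h1, Finset.sum_comm]
      refine Finset.sum_le_sum fun v hv => ?_
      obtain ⟨hvT, _⟩ := Finset.mem_filter.1 hv
      rw [← Finset.mul_sum]
      have h2 : ∑ i ∈ J.filter (fun i => c (L i) ≤ s), a i * g i v ≤ 1 := by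
        refine le_trans ?_ (h.sum_le v (hTS hvT))
        exact Finset.sum_le_sum_of_subset_of_nonneg (Finset.subset_univ _)
          fun i _ _ => mul_nonneg (h.apos i).le (g0 i v (hTS hvT))
      calc c v * ∑ i ∈ J.filter (fun i => c (L i) ≤ s), a i * g i v ≤ c v * 1 :=
            mul_le_mul_of_nonneg_left h2 (hc v hvT).le
        _ = c v := mul_one _)
  refine le_trans (Finset.sum_le_sum fun i hi => ?_) hw
  have hi' := Finset.mem_filter.1 hi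
  have hcl : 0 < c (L i) := hc _ (hL i hi).1
  rw [le_div_iff₀ hcl]
  exact mul_le_mul_of_nonneg_left (key' i hi'.1 (L i) (hL i hi).1 (hL i hi).2.1) (h.apos i).le


end X_lemmaA

alias lemmaA := X_lemmaA.lemmaA

end Pool.Agent.ToricNef
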