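import Pool.Agent.ToricNef.Base
import Pool.Agent.ToricNef.P_lemmaA
import Pool.Agent.ToricNef.P_lemmaB

open scoped Classical

namespace Pool.Agent.ToricNef

namespace X_lemmaC

theorem lemmaC_dot {n : ℕ} (m v : Fin n → ℤ) : toR m ⬝ᵥ toR v = ((m ⬝ᵥ v : ℤ) : ℝ) := by
  unfold toR dotProduct
  push_cast
  rfl

theorem lemmaC {n k : ℕ} {S : Finset (Fin n → ℤ)} {a : Fin k → ℝ} {P : Fin k → Finset (Fin n → ℤ)}
    {d : Fin k → (Fin n → ℤ) → ℤ} {p : Fin k → Fin n → ℝ} (h : CoreData n S k a P d p)
    (hpos : ∃ c : (Fin n → ℤ) → ℝ, (∀ v ∈ S, 0 < c v) ∧ ∑ v ∈ S, c v • toR v = 0)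
    (hspan : Submodule.span ℝ (toR '' (S : Set (Fin n → ℤ))) = ⊤) (I : Finset (Fin k)) :
    ∑ i ∈ I, a i ≤ 2 * ((n : ℝ) - Module.finrank ℝ (Vsub P I)) := by
  obtain ⟨N, hN⟩ : ∃ N, I.card = N := ⟨_, rfl⟩
  induction N using Nat.strong_induction_on generalizing I with
  | _ N ih =>
    by_cases hV : Vsub P I = ⊤
    · have hI : I = ∅ := by
        rw [Finset.eq_empty_iff_forall_notMem]
        intro i hi
        obtain ⟨m, hm, m', hm', hne⟩ := h.nontriv i
        apply hne
        funext j
        have hx : (Pi.single j (1 : ℝ) : Fin n → ℝ) ∈ Vsub P I := by rw [hV]; trivial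
        have h1 := hx i hi m hm m' hm'
        rw [dotProduct_single, dotProduct_single, mul_one, mul_one] at h1
        unfold toR at h1
        exact_mod_cast h1
      rw [hV, hI]
      simp
    · obtain ⟨v0, hv0S, hv0⟩ : ∃ v0 ∈ S, toR v0 ∉ Vsub P I := by
        by_contra hcon
        push Not at hcon
        apply hV
        rw [eq_top_iff, ← hspan, Submodule.span_le]
        rintro x ⟨v, hv, rfl⟩
        exact hcon v hv
      obtain ⟨c, hc, hc0⟩ := hpos
      obtain ⟨T, hTS, c', hc', hrel', hv0T, h2, hfin⟩ :=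
        lemmaB (Vsub P I) S c hc (by rw [hc0]; exact Submodule.zero_mem _) v0 hv0S hv0
      have hA := lemmaA h I T hTS c' hc' hrel'
      set q : Fin k → Prop := fun i => ∃ v ∈ T, ∃ m ∈ P i, ∃ m' ∈ P i, m ⬝ᵥ v ≠ m' ⬝ᵥ v with hq
      have hsum : ∑ i ∈ I, a i = ∑ i ∈ I.filter q, a i + ∑ i ∈ I.filter (fun i => ¬ q i), a i :=
        (Finset.sum_filter_add_sum_filter_not I q a).symm
      have hle : Vsub P I ⊔ Submodule.span ℝ (toR '' (T : Set (Fin n → ℤ))) ≤
          Vsub P (I.filter (fun i => ¬ q i)) := by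
        rw [sup_le_iff]
        constructor
        · intro x hx i hi
          exact hx i (Finset.mem_filter.1 hi).1
        · rw [Submodule.span_le]
          rintro x ⟨v, hv, rfl⟩
          intro i hi m hm m' hm'
          have hnq := (Finset.mem_filter.1 hi).2
          rw [lemmaC_dot, lemmaC_dot]
          by_contra hne
          exact hnq ⟨v, hv, m, hm, m', hm', fun h' => hne (by rw [h'])⟩
      have hfr := Submodule.finrank_mono hle
      obtain ⟨i0, hi0, hq0⟩ : ∃ i ∈ I, q i := by
        by_contra hcon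
        push Not at hcon
        apply hv0
        intro i hi m hm m' hm'
        rw [lemmaC_dot, lemmaC_dot]
        by_contra hne
        exact hcon i hi ⟨v0, hv0T, m, hm, m', hm', fun h' => hne (by rw [h'])⟩
      have hcard : (I.filter (fun i => ¬ q i)).card < N := by
        rw [← hN]
        apply Finset.card_lt_card
        rw [Finset.filter_ssubset]
        exact ⟨i0, hi0, fun h' => h' hq0⟩
      have hI2 := ih _ hcard (I.filter (fun i => ¬ q i)) rfl
      have h2' : (2 : ℝ) ≤ T.card := by exact_mod_cast h2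
      have h3 : (Module.finrank ℝ (Vsub P I) : ℝ) + T.card ≤
          Module.finrank ℝ (Vsub P (I.filter (fun i => ¬ q i))) + 1 := by
        exact_mod_cast hfin.trans (Nat.add_le_add_right hfr 1)
      rw [hsum]
      linarith


end X_lemmaC

alias lemmaC := X_lemmaC.lemmaC

end Pool.Agent.ToricNef
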