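import Pool.Agent.ToricNef.Base
import Pool.Agent.ToricNef.P_lemmaA
import Pool.Agent.ToricNef.P_lemmaC

open scoped Classical

namespace Pool.Agent.ToricNef

namespace X_lemmaD

theorem lemmaD_dot {n : ℕ} (m v : Fin n → ℤ) : toR m ⬝ᵥ toR v = ((m ⬝ᵥ v : ℤ) : ℝ) := by
  unfold toR dotProduct
  push_cast
  rfl

theorem lemmaD {n k : ℕ} {S : Finset (Fin n → ℤ)} {a : Fin k → ℝ} {P : Fin k → Finset (Fin n → ℤ)}
    {d : Fin k → (Fin n → ℤ) → ℤ} {p : Fin k → Fin n → ℝ} (h : CoreData n S k a P d p)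
    (hpos : ∃ c : (Fin n → ℤ) → ℝ, (∀ v ∈ S, 0 < c v) ∧ ∑ v ∈ S, c v • toR v = 0)
    (hspan : Submodule.span ℝ (toR '' (S : Set (Fin n → ℤ))) = ⊤)
    (heq : ∑ i, a i = 2 * n) (T : Finset (Fin n → ℤ)) (hTS : T ⊆ S) (c : (Fin n → ℤ) → ℝ)
    (hc : ∀ v ∈ T, 0 < c v) (hrel : ∑ v ∈ T, c v • toR v = 0)
    (hrk : T.card ≤ Module.finrank ℝ (Submodule.span ℝ (toR '' (T : Set (Fin n → ℤ)))) + 1) :
    T.card ≤ 2 := by
  have h1 := lemmaA h Finset.univ T hTS c hc (by rw [hrel]; exact (Vsub P Finset.univ).zero_mem)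
  have h2 := lemmaC h hpos hspan (Finset.univ.filter
    (fun i => ¬ ∃ v ∈ T, ∃ m ∈ P i, ∃ m' ∈ P i, m ⬝ᵥ v ≠ m' ⬝ᵥ v))
  have h3 := Finset.sum_filter_add_sum_filter_not Finset.univ
    (fun i => ∃ v ∈ T, ∃ m ∈ P i, ∃ m' ∈ P i, m ⬝ᵥ v ≠ m' ⬝ᵥ v) a
  obtain ⟨I2, hI2⟩ : ∃ I2, I2 = Finset.univ.filter
    (fun i => ¬ ∃ v ∈ T, ∃ m ∈ P i, ∃ m' ∈ P i, m ⬝ᵥ v ≠ m' ⬝ᵥ v) := ⟨_, rfl⟩
  rw [← hI2] at h2 h3
  have h4 : Submodule.span ℝ (toR '' (T : Set (Fin n → ℤ))) ≤ Vsub P I2 := by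
    rw [Submodule.span_le]
    rintro _ ⟨v, hv, rfl⟩
    intro i hi m hm m' hm'
    rw [hI2, Finset.mem_filter] at hi
    have h5 : m ⬝ᵥ v = m' ⬝ᵥ v := by
      by_contra hne
      exact hi.2 ⟨v, hv, m, hm, m', hm', hne⟩
    rw [lemmaD_dot, lemmaD_dot, h5]
  have h6 := Submodule.finrank_mono h4
  have h7 : (T.card : ℝ) ≤ (Module.finrank ℝ (Vsub P I2) : ℝ) + 1 := by
    exact_mod_cast hrk.trans (Nat.add_le_add_right h6 1)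
  rw [heq] at h3
  have h8 : (T.card : ℝ) ≤ 2 := by linarith
  exact_mod_cast h8


end X_lemmaD

alias lemmaD := X_lemmaD.lemmaD

end Pool.Agent.ToricNef
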