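import Pool.Agent.ToricNef.Base
import Pool.Agent.ToricNef.P_lemmaB
import Pool.Agent.ToricNef.P_lemmaD

open scoped Classical

namespace Pool.Agent.ToricNef

namespace X_neg_mem_of_eq

theorem prim_gcd_aux {n : ℕ} (v : Fin n → ℤ)
    (hp : ∀ (w : Fin n → ℤ) (k : ℕ), v = k • w → k = 1) : Finset.univ.gcd v = 1 := by
  have hd : ∀ i, ∃ w, v i = Finset.univ.gcd v * w := fun i => Finset.gcd_dvd (Finset.mem_univ i)
  choose w hw using hd
  have hn : (((Finset.univ.gcd v).natAbs : ℕ) : ℤ) = Finset.univ.gcd v := by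
    rw [Int.natCast_natAbs, Int.abs_eq_normalize, Finset.normalize_gcd]
  have h1 := hp w (Finset.univ.gcd v).natAbs (by
    funext i
    rw [Pi.smul_apply, nsmul_eq_mul, hn]; exact hw i)
  rw [← hn, h1]; rfl

theorem neg_of_prim_aux {n : ℕ} (v u : Fin n → ℤ) (α β : ℝ) (hα : 0 < α) (hβ : 0 < β)
    (hv : ∀ (w : Fin n → ℤ) (k : ℕ), v = k • w → k = 1)
    (hu : ∀ (w : Fin n → ℤ) (k : ℕ), u = k • w → k = 1)
    (h : α • toR v + β • toR u = 0) : u = -v := by
  have hc : ∀ i, α * (v i : ℝ) + β * (u i : ℝ) = 0 := by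
    intro i
    have := congrFun h i
    simpa [toR] using this
  have hcross : ∀ i j, v i * u j = u i * v j := by
    intro i j
    have h1 := hc i
    have h2 := hc j
    have h3 : β * ((v i : ℝ) * (u j : ℝ) - (u i : ℝ) * (v j : ℝ)) = 0 := by
      have e : β * ((v i : ℝ) * (u j : ℝ) - (u i : ℝ) * (v j : ℝ))
        = (v i : ℝ) * (α * (v j : ℝ) + β * (u j : ℝ))
          - (v j : ℝ) * (α * (v i : ℝ) + β * (u i : ℝ)) := by ring
      rw [e, h1, h2]; ring
    have h4 : ((v i : ℝ) * (u j : ℝ) - (u i : ℝ) * (v j : ℝ)) = 0 := by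
      rcases mul_eq_zero.1 h3 with h | h
      · exact absurd h hβ.ne'
      · exact h
    have h5 : (v i : ℝ) * (u j : ℝ) = (u i : ℝ) * (v j : ℝ) := by linarith
    exact_mod_cast h5
  funext i
  have habs : |v i| = |u i| := by
    have e1 : Finset.univ.gcd (fun j => v i * u j) = normalize (v i) * Finset.univ.gcd u :=
      Finset.gcd_mul_left
    have e2 : Finset.univ.gcd (fun j => u i * v j) = normalize (u i) * Finset.univ.gcd v :=
      Finset.gcd_mul_left
    rw [prim_gcd_aux u hu, mul_one] at e1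
    rw [prim_gcd_aux v hv, mul_one] at e2
    have e3 : (fun j => v i * u j) = (fun j => u i * v j) := by
      funext j; exact hcross i j
    rw [Int.abs_eq_normalize, Int.abs_eq_normalize, ← e1, ← e2, e3]
  rw [Pi.neg_apply]
  rcases abs_eq_abs.1 habs with h1 | h1
  · have h2 := hc i
    rw [h1] at h2
    have h3 : (α + β) * (u i : ℝ) = 0 := by linarith
    have h4 : (u i : ℝ) = 0 := by
      rcases mul_eq_zero.1 h3 with h | h
      · exact absurd h (by positivity)
      · exact h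
    have h5 : u i = 0 := by exact_mod_cast h4
    rw [h1, h5]; rfl
  · rw [h1, neg_neg]

theorem neg_mem_of_eq {n k : ℕ} {S : Finset (Fin n → ℤ)} {a : Fin k → ℝ}
    {P : Fin k → Finset (Fin n → ℤ)}
    {d : Fin k → (Fin n → ℤ) → ℤ} {p : Fin k → Fin n → ℝ} (h : CoreData n S k a P d p)
    (hS : IsFano S)
    (hpos : ∃ c : (Fin n → ℤ) → ℝ, (∀ v ∈ S, 0 < c v) ∧ ∑ v ∈ S, c v • toR v = 0)
    (hspan : Submodule.span ℝ (toR '' (S : Set (Fin n → ℤ))) = ⊤)
    (heq : ∑ i, a i = 2 * n) (v : Fin n → ℤ) (hv : v ∈ S) : -v ∈ S := by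
  have hv0 : toR v ≠ 0 := by
    intro h0
    have h1 : v = (0 : ℕ) • v := by
      funext i
      have := congrFun h0 i
      simp only [toR, Pi.zero_apply] at this
      have h2 : v i = 0 := by exact_mod_cast this
      simp [h2]
    have := hS.primitive v hv v 0 h1
    exact absurd this (by norm_num)
  obtain ⟨c, hc, hrel⟩ := hpos
  obtain ⟨T, hTS, c1, hc1, hrel1, hvT, h2T, hrk⟩ := lemmaB ⊥ S c hc
    (by rw [hrel]; exact Submodule.zero_mem _) v hv (by
      intro hm; exact hv0 ((Submodule.mem_bot ℝ).1 hm))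
  have hrel2 : ∑ v ∈ T, c1 v • toR v = 0 := (Submodule.mem_bot ℝ).1 hrel1
  rw [finrank_bot, bot_sup_eq, zero_add] at hrk
  have hT2 := lemmaD h ⟨c, hc, hrel⟩ hspan heq T hTS c1 hc1 hrel2 hrk
  have hcard : T.card = 2 := le_antisymm hT2 h2T
  obtain ⟨x, y, hxy, hT⟩ := Finset.card_eq_two.1 hcard
  have hfin : ∀ x y : Fin n → ℤ, x ≠ y → T = {x, y} → v = x → -v ∈ S := by
    intro x y hxy hT hvx
    subst hvx
    have hyT : y ∈ T := by rw [hT]; simp
    have hsum : c1 v • toR v + c1 y • toR y = 0 := by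
      rw [hT, Finset.sum_pair hxy] at hrel2
      exact hrel2
    have := neg_of_prim_aux v y (c1 v) (c1 y) (hc1 v hvT) (hc1 y hyT)
      (hS.primitive v hv) (hS.primitive y (hTS hyT)) hsum
    rw [← this]
    exact hTS hyT
  have hv' := hvT
  rw [hT] at hv'
  simp only [Finset.mem_insert, Finset.mem_singleton] at hv'
  rcases hv' with h1 | h1
  · exact hfin x y hxy hT h1
  · exact hfin y x hxy.symm (by rw [hT, Finset.pair_comm]) h1


end X_neg_mem_of_eq

alias neg_mem_of_eq := X_neg_mem_of_eq.neg_mem_of_eq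

end Pool.Agent.ToricNef
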