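import Pool.Agent.ToricNef.Base
import Pool.Agent.ToricNef.P_lemmaD
import Pool.Agent.ToricNef.P_neg_mem_of_eq
import Pool.Agent.ToricNef.P_dual_of_eq

open scoped Classical

namespace Pool.Agent.ToricNef

namespace X_structure_of_eq
theorem toR_inj' {n : ℕ} {v w : Fin n → ℤ} (h : toR v = toR w) : v = w := by
  funext i
  have := congrFun h i
  simp only [toR] at this
  exact_mod_cast this

theorem toR_dot' {n : ℕ} (v w : Fin n → ℤ) : toR v ⬝ᵥ toR w = ((v ⬝ᵥ w : ℤ) : ℝ) := by
  simp [dotProduct, toR]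

theorem exists_basis_sub' {n : ℕ} {S : Finset (Fin n → ℤ)}
    (hspan : Submodule.span ℝ (toR '' (S : Set (Fin n → ℤ))) = ⊤) :
    ∃ b : Fin n → Fin n → ℤ, (∀ j, b j ∈ S) ∧ LinearIndependent ℝ (fun j => toR (b j)) := by
  obtain ⟨B, hB1, hB2, hB3⟩ := exists_linearIndependent ℝ (toR '' (S : Set (Fin n → ℤ)))
  have hfin : B.Finite := (S.finite_toSet.image toR).subset hB1
  haveI : Fintype B := hfin.fintype
  have hsp : ⊤ ≤ Submodule.span ℝ (Set.range (fun x : B => (x : Fin n → ℝ))) := by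
    rw [Subtype.range_coe, hB2, hspan]
  have hcard : Fintype.card B = n := by
    have := Module.finrank_eq_card_basis (Module.Basis.mk hB3 hsp)
    simpa using this.symm
  let e : Fin n ≃ B := (Fintype.equivFinOfCardEq hcard).symm
  have hch : ∀ j, ∃ w ∈ S, toR w = (e j : Fin n → ℝ) := by
    intro j
    obtain ⟨w, hw, hw2⟩ := hB1 (e j).2
    exact ⟨w, hw, hw2⟩
  choose b hb1 hb2 using hch
  refine ⟨b, hb1, ?_⟩
  have : (fun j => toR (b j)) = (fun x : B => (x : Fin n → ℝ)) ∘ e := by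
    funext j; exact hb2 j
  rw [this]
  exact hB3.comp e e.injective

theorem expand_of_dual {n : ℕ} (b u : Fin n → Fin n → ℤ)
    (hlin : LinearIndependent ℝ (fun j => toR (b j)))
    (hu : ∀ j l, u j ⬝ᵥ b l = if j = l then 1 else 0) (x : Fin n → ℤ) :
    x = ∑ j, (u j ⬝ᵥ x) • b j := by
  have hsp := hlin.span_eq_top_of_card_eq_finrank' (by simp)
  have hx : toR x ∈ Submodule.span ℝ (Set.range (fun j => toR (b j))) := by
    rw [hsp]; trivial
  rw [Submodule.mem_span_range_iff_exists_fun] at hx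
  obtain ⟨c, hc⟩ := hx
  have h2 : ∀ l, c l = ((u l ⬝ᵥ x : ℤ) : ℝ) := by
    intro l
    rw [← toR_dot', ← hc, dotProduct_sum]
    simp only [dotProduct_smul, toR_dot', hu]
    simp
  apply toR_inj'
  rw [← hc]
  funext i
  simp only [toR, Finset.sum_apply, Pi.smul_apply, h2, smul_eq_mul]
  push_cast
  rfl

theorem li_of_dual {n : ℕ} (b u : Fin n → Fin n → ℤ)
    (hu : ∀ j l, u j ⬝ᵥ b l = if j = l then 1 else 0) : LinearIndependent ℤ b := by
  rw [Fintype.linearIndependent_iff]
  intro g hg i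
  have h1 : u i ⬝ᵥ (∑ j, g j • b j) = 0 := by rw [hg]; simp
  rw [dotProduct_sum] at h1
  simp only [dotProduct_smul, hu] at h1
  simpa using h1

theorem two_of_T {n k : ℕ} {S : Finset (Fin n → ℤ)} {a : Fin k → ℝ}
    {P : Fin k → Finset (Fin n → ℤ)}
    {d : Fin k → (Fin n → ℤ) → ℤ} {p : Fin k → Fin n → ℝ} (h : CoreData n S k a P d p)
    (hpos : ∃ c : (Fin n → ℤ) → ℝ, (∀ v ∈ S, 0 < c v) ∧ ∑ v ∈ S, c v • toR v = 0)
    (hspan : Submodule.span ℝ (toR '' (S : Set (Fin n → ℤ))) = ⊤)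
    (heq : ∑ i, a i = 2 * n) (b u : Fin n → Fin n → ℤ) (hb : ∀ j, b j ∈ S)
    (hnb : ∀ j, - b j ∈ S)
    (hlin : LinearIndependent ℝ (fun j => toR (b j)))
    (hu : ∀ j l, u j ⬝ᵥ b l = if j = l then 1 else 0) (v : Fin n → ℤ) (hv : v ∈ S) :
    (Finset.univ.filter (fun j => u j ⬝ᵥ v ≠ 0)).card ≤ 1 := by
  obtain ⟨A, hA⟩ : ∃ A, A = Finset.univ.filter (fun j => u j ⬝ᵥ v ≠ 0) := ⟨_, rfl⟩
  rw [← hA]
  have hAmem : ∀ j, j ∈ A ↔ u j ⬝ᵥ v ≠ 0 := by intro j; rw [hA]; simp
  obtain ⟨s, hs⟩ : ∃ s : Fin n → Fin n → ℤ, s = fun j => if 0 < u j ⬝ᵥ v then - b j else b j :=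
    ⟨_, rfl⟩
  have hus : ∀ l j, u l ⬝ᵥ s j = if l = j then (if 0 < u j ⬝ᵥ v then -1 else 1) else 0 := by
    intro l j
    rw [hs]
    dsimp only
    by_cases h1 : 0 < u j ⬝ᵥ v
    · rw [if_pos h1, if_pos h1, dotProduct_neg, hu]
      by_cases h2 : l = j
      · rw [if_pos h2, if_pos h2]
      · rw [if_neg h2, if_neg h2]; rfl
    · rw [if_neg h1, if_neg h1, hu]
  have hsS : ∀ j, s j ∈ S := by
    intro j
    rw [hs]
    dsimp only
    split_ifs
    · exact hnb j
    · exact hb j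
  have hsv : ∀ j ∈ A, s j ≠ v := by
    intro j hj he
    have h1 := hus j j
    rw [he, if_pos rfl] at h1
    have h2 := (hAmem j).mp hj
    by_cases h3 : 0 < u j ⬝ᵥ v
    · rw [if_pos h3] at h1; omega
    · rw [if_neg h3] at h1; omega
  have hsinj : Function.Injective s := by
    intro i j hij
    by_contra hne
    have h1 := hus i i
    have h2 := hus i j
    rw [if_neg hne] at h2
    rw [if_pos rfl, hij, h2] at h1
    by_cases h3 : 0 < u i ⬝ᵥ v
    · simp [h3] at h1
    · simp [h3] at h1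
  obtain ⟨T, hT⟩ : ∃ T, T = insert v (A.image s) := ⟨_, rfl⟩
  have hvn : v ∉ A.image s := by
    intro hmem
    rw [Finset.mem_image] at hmem
    obtain ⟨j, hj, hj2⟩ := hmem
    exact hsv j hj hj2
  have hTcard : T.card = A.card + 1 := by
    rw [hT, Finset.card_insert_of_notMem hvn, Finset.card_image_of_injective _ hsinj]
  have hTS : T ⊆ S := by
    rw [hT]
    intro w hw
    rw [Finset.mem_insert, Finset.mem_image] at hw
    rcases hw with rfl | ⟨j, _, rfl⟩
    · exact hv
    · exact hsS j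
  obtain ⟨c, hc⟩ : ∃ c : (Fin n → ℤ) → ℝ, c = fun w => if w = v then 1 else
    ∑ l, |((u l ⬝ᵥ w : ℤ) : ℝ)| * |((u l ⬝ᵥ v : ℤ) : ℝ)| := ⟨_, rfl⟩
  have hcv : c v = 1 := by rw [hc]; dsimp only; rw [if_pos rfl]
  have hcs : ∀ j ∈ A, c (s j) = |((u j ⬝ᵥ v : ℤ) : ℝ)| := by
    intro j hj
    rw [hc]
    dsimp only
    rw [if_neg (hsv j hj)]
    rw [Finset.sum_eq_single j]
    · rw [hus, if_pos rfl]
      split_ifs <;> simp
    · intro l _ hl
      rw [hus, if_neg hl]
      simp
    · intro h; exact absurd (Finset.mem_univ j) h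
  have hcpos : ∀ w ∈ T, 0 < c w := by
    intro w hw
    rw [hT, Finset.mem_insert, Finset.mem_image] at hw
    rcases hw with rfl | ⟨j, hj, rfl⟩
    · rw [hcv]; norm_num
    · rw [hcs j hj]
      apply abs_pos.mpr
      have := (hAmem j).mp hj
      exact_mod_cast this
  have hterm : ∀ j ∈ A, c (s j) • toR (s j) = -(((u j ⬝ᵥ v : ℤ) : ℝ) • toR (b j)) := by
    intro j hj
    rw [hcs j hj, hs]
    dsimp only
    by_cases h1 : 0 < u j ⬝ᵥ v
    · rw [if_pos h1]
      have h2 : (0 : ℝ) < ((u j ⬝ᵥ v : ℤ) : ℝ) := by exact_mod_cast h1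
      rw [abs_of_pos h2]
      funext i
      simp [toR]
    · rw [if_neg h1]
      have h2 : ((u j ⬝ᵥ v : ℤ) : ℝ) ≤ 0 := by
        push Not at h1
        exact_mod_cast h1
      rw [abs_of_nonpos h2]
      funext i
      simp [toR]
  have hvexp : toR v = ∑ j, ((u j ⬝ᵥ v : ℤ) : ℝ) • toR (b j) := by
    have h1 := expand_of_dual b u hlin hu v
    have h2 : toR v = toR (∑ j, (u j ⬝ᵥ v) • b j) := congrArg toR h1
    rw [h2]
    funext i
    simp only [toR, Finset.sum_apply, Pi.smul_apply, smul_eq_mul]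
    push_cast
    rfl
  have hsumA : ∑ j ∈ A, ((u j ⬝ᵥ v : ℤ) : ℝ) • toR (b j)
      = ∑ j, ((u j ⬝ᵥ v : ℤ) : ℝ) • toR (b j) := by
    apply Finset.sum_subset (Finset.subset_univ _)
    intro j _ hj
    have : u j ⬝ᵥ v = 0 := by
      by_contra h
      exact hj ((hAmem j).mpr h)
    rw [this]; simp
  have hrel : ∑ w ∈ T, c w • toR w = 0 := by
    rw [hT, Finset.sum_insert hvn, hcv, one_smul, Finset.sum_image (fun x _ y _ h => hsinj h),
      Finset.sum_congr rfl hterm, Finset.sum_neg_distrib, hsumA, ← hvexp, add_neg_cancel]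
  have hrk : T.card ≤ Module.finrank ℝ (Submodule.span ℝ (toR '' (T : Set (Fin n → ℤ)))) + 1 := by
    rw [hTcard]
    apply Nat.add_le_add_right
    have hsub : ∀ j : A, toR (b j) ∈ Submodule.span ℝ (toR '' (T : Set (Fin n → ℤ))) := by
      intro j
      have h1 : s j ∈ T := by
        rw [hT, Finset.mem_insert, Finset.mem_image]
        exact Or.inr ⟨j, j.2, rfl⟩
      have h2 : toR (s j) ∈ Submodule.span ℝ (toR '' (T : Set (Fin n → ℤ))) :=
        Submodule.subset_span ⟨s j, by exact_mod_cast h1, rfl⟩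
      by_cases h3 : 0 < u j ⬝ᵥ v
      · have h4 : toR (b j) = -toR (s j) := by
          rw [hs]; dsimp only; rw [if_pos h3]; funext i; simp [toR]
        rw [h4]
        exact Submodule.neg_mem _ h2
      · have h4 : toR (b j) = toR (s j) := by
          rw [hs]; dsimp only; rw [if_neg h3]
        rw [h4]
        exact h2
    have hli : LinearIndependent ℝ (fun j : A =>
        (⟨toR (b j), hsub j⟩ : Submodule.span ℝ (toR '' (T : Set (Fin n → ℤ))))) := by
      apply LinearIndependent.of_comp (Submodule.span ℝ (toR '' (T : Set (Fin n → ℤ)))).subtype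
      exact hlin.comp (fun j : A => (j : Fin n)) Subtype.val_injective
    have := hli.fintype_card_le_finrank
    simpa using this
  have := lemmaD h hpos hspan heq T hTS c hcpos hrel hrk
  omega



theorem structure_of_eq {n k : ℕ} {S : Finset (Fin n → ℤ)} {a : Fin k → ℝ}
    {P : Fin k → Finset (Fin n → ℤ)}
    {d : Fin k → (Fin n → ℤ) → ℤ} {p : Fin k → Fin n → ℝ} (h : CoreData n S k a P d p)
    (hS : IsFano S)
    (hpos : ∃ c : (Fin n → ℤ) → ℝ, (∀ v ∈ S, 0 < c v) ∧ ∑ v ∈ S, c v • toR v = 0)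
    (hspan : Submodule.span ℝ (toR '' (S : Set (Fin n → ℤ))) = ⊤)
    (heq : ∑ i, a i = 2 * n) :
    ∃ b : Module.Basis (Fin n) ℤ (Fin n → ℤ), ∀ v, v ∈ S ↔ ∃ j, v = b j ∨ v = - b j := by
  obtain ⟨b, hb, hlin⟩ := exists_basis_sub' hspan
  have hnb : ∀ j, - b j ∈ S := fun j => neg_mem_of_eq h hS hpos hspan heq (b j) (hb j)
  obtain ⟨u, hu⟩ := dual_of_eq h heq b hb hnb hlin
  have hliZ := li_of_dual b u hu
  have hspZ : ⊤ ≤ Submodule.span ℤ (Set.range b) := by
    intro x _
    rw [Submodule.mem_span_range_iff_exists_fun]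
    exact ⟨fun j => u j ⬝ᵥ x, (expand_of_dual b u hlin hu x).symm⟩
  refine ⟨Module.Basis.mk hliZ hspZ, ?_⟩
  intro v
  simp only [Module.Basis.mk_apply]
  constructor
  · intro hv
    have h1 := two_of_T h hpos hspan heq b u hb hnb hlin hu v hv
    have hexp := expand_of_dual b u hlin hu v
    rcases Nat.lt_or_ge (Finset.univ.filter (fun j => u j ⬝ᵥ v ≠ 0)).card 1 with h2 | h2
    · -- A empty : v = 0
      exfalso
      have h3 : (Finset.univ.filter (fun j => u j ⬝ᵥ v ≠ 0)) = ∅ := by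
        rw [← Finset.card_eq_zero]; omega
      have h4 : ∀ j, u j ⬝ᵥ v = 0 := by
        intro j
        by_contra hne
        have : j ∈ (Finset.univ.filter (fun j => u j ⬝ᵥ v ≠ 0)) := by simp [hne]
        rw [h3] at this
        simp at this
      have h5 : v = 0 := by
        rw [hexp]
        apply Finset.sum_eq_zero
        intro j _
        rw [h4 j, zero_smul]
      have := hS.primitive v hv 0 2 (by rw [h5]; simp)
      omega
    · have h3 : (Finset.univ.filter (fun j => u j ⬝ᵥ v ≠ 0)).card = 1 := by omega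
      rw [Finset.card_eq_one] at h3
      obtain ⟨j, hj⟩ := h3
      have hj0 : u j ⬝ᵥ v ≠ 0 := by
        have : j ∈ (Finset.univ.filter (fun j => u j ⬝ᵥ v ≠ 0)) := by rw [hj]; simp
        simpa using this
      have h4 : ∀ l, l ≠ j → u l ⬝ᵥ v = 0 := by
        intro l hl
        by_contra hne
        have : l ∈ (Finset.univ.filter (fun j => u j ⬝ᵥ v ≠ 0)) := by simp [hne]
        rw [hj] at this
        simp at this
        exact hl this
      have h5 : v = (u j ⬝ᵥ v) • b j := by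
        conv_lhs => rw [hexp]
        rw [Finset.sum_eq_single j]
        · intro l _ hl
          rw [h4 l hl, zero_smul]
        · intro h; exact absurd (Finset.mem_univ j) h
      obtain ⟨x, hx⟩ : ∃ x, x = u j ⬝ᵥ v := ⟨_, rfl⟩
      rw [← hx] at h5 hj0
      refine ⟨j, ?_⟩
      rcases lt_or_gt_of_ne hj0 with hneg | hpos'
      · right
        have h6 : v = x.natAbs • (-b j) := by
          conv_lhs => rw [h5]
          rw [← natCast_zsmul]
          have : ((x.natAbs : ℕ) : ℤ) = -x := by omega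
          rw [this, neg_smul, smul_neg, neg_neg]
        have h7 := hS.primitive v hv _ _ h6
        rw [h6, h7, one_smul]
      · left
        have h6 : v = x.natAbs • (b j) := by
          conv_lhs => rw [h5]
          rw [← natCast_zsmul]
          have : ((x.natAbs : ℕ) : ℤ) = x := by omega
          rw [this]
        have h7 := hS.primitive v hv _ _ h6
        rw [h6, h7, one_smul]
  · rintro ⟨j, rfl | rfl⟩
    · exact hb j
    · exact hnb j


end X_structure_of_eq

alias structure_of_eq := X_structure_of_eq.structure_of_eq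

end Pool.Agent.ToricNef
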