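import Pool.Agent.ToricNef.Base
import Pool.Agent.ToricNef.P_weights_lemma
import Pool.Agent.ToricNef.P_lemmaA
import Pool.Agent.ToricNef.P_lemmaB
import Pool.Agent.ToricNef.P_lemmaC
import Pool.Agent.ToricNef.P_lemmaD
import Pool.Agent.ToricNef.P_fano_pos
import Pool.Agent.ToricNef.P_neg_mem_of_eq
import Pool.Agent.ToricNef.P_dual_of_eq
import Pool.Agent.ToricNef.P_structure_of_eq
import Pool.Agent.ToricNef.P_polar_compact
import Pool.Agent.ToricNef.P_facet_of_extreme
import Pool.Agent.ToricNef.P_facet_finite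
import Pool.Agent.ToricNef.P_exists_facet
import Pool.Agent.ToricNef.P_zero_mem_facets
import Pool.Agent.ToricNef.P_core_of_nef
import Pool.Agent.ToricNef.P_decomposition_of_basis

open scoped Classical

namespace Pool.Agent.ToricNef

theorem main (n : ℕ) (hn : 1 ≤ n) (S : Finset (Fin n → ℤ)) (hS : IsFano S) :
    (∀ D : NefDecomposition S, D.weight ≤ 2 * n) ∧
    ((∃ D : NefDecomposition S, D.weight = 2 * n) ↔
      ∃ b : Module.Basis (Fin n) ℤ (Fin n → ℤ), ∀ v, v ∈ S ↔ ∃ j, v = b j ∨ v = - b j) := by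
  obtain ⟨hpos, hspan⟩ := fano_pos hn hS
  refine ⟨fun D => ?_, ⟨fun ⟨D, hD⟩ => ?_, fun ⟨b, hb⟩ => decomposition_of_basis hn b hb⟩⟩
  · obtain ⟨P, p, h⟩ := core_of_nef hn hS D
    have := lemmaC h hpos hspan Finset.univ
    have h0 : (0 : ℝ) ≤ Module.finrank ℝ (Vsub P Finset.univ) := by positivity
    unfold NefDecomposition.weight
    linarith
  · obtain ⟨P, p, h⟩ := core_of_nef hn hS D
    exact structure_of_eq h hS hpos hspan hD

end Pool.Agent.ToricNef
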